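import Pool.Agent.H79.PRK.S6
import Pool.Agent.H22.PRL.GDF

/-!
# PRK, row GDFK: almost all polynomials of the family are good
-/

set_option autoImplicit false

namespace Pool.PRK

open Polynomial Matrix Pool.HYP Pool.TOW Pool.AVS Pool.T1 IsDedekindDomain

namespace GDFKaux

/-- The bound for the balanced elements, for an arbitrary finite type of places. -/
theorem one {α X : Type} [Fintype X] [DecidableEq X] (Φ : Set α) (hΦ : Φ.Finite)
    (Q : α → (X → Ty) → Prop) (c : α → (X → Ty) → ℝ) (T1 D2 : Finset X) (j : ℕ)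
    (hT1 : T1.card = 2 * j + 1) (η ε κ : ℝ) (hη : 0 < η) (hε : 0 < ε) (hκ : 0 < κ)
    (hc : ∀ f ∈ Φ, ∀ m, 0 ≤ c f m)
    (hQ : ∀ f ∈ Φ, ∀ m, m ∈ {m : X → Ty | ∀ v, m v ≠ (1, 1)} → Q f m → 1 ≤ c f m)
    (hs : ∀ m : X → Ty, (∀ v, m v ≠ (1, 1)) →
      ∑ᶠ f ∈ Φ, c f m ≤ κ / 2 ^ Fintype.card X * Φ.ncard)
    (ht : ∀ D : Finset X, ({m | m ∈ PRL.LS D ∧ ¬ PRL.Bal η T1 D m}.ncard : ℝ) ≤
      (ε * η / (8 * κ)) * 2 ^ Fintype.card X) :
    ({f | f ∈ Φ ∧ ¬ (({D | D ∈ PRL.sl T1 D2 j ∪ PRL.sl T1 D2 (j + 1) ∧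
      ∃ m : X → Ty, m ≠ 0 ∧ m ∈ PRL.LS D ∧
      ¬ PRL.Bal η T1 D m ∧ Q f m}.ncard : ℝ) ≤ η * ((2 * j + 1).choose j : ℝ))}.ncard : ℝ) ≤
      ε / 4 * Φ.ncard := by
  have hCpos : 0 < (((2 * j + 1).choose j : ℕ) : ℝ) := by
    exact_mod_cast Nat.choose_pos (by omega)
  have hpos : (0 : ℝ) < 2 ^ Fintype.card X := by positivity
  have h := PRL.gdf_abs Φ hΦ Q c T1 (PRL.sl T1 D2 j ∪ PRL.sl T1 D2 (j + 1)) η
    (κ / 2 ^ Fintype.card X * Φ.ncard)
    ((ε * η / (8 * κ)) * 2 ^ Fintype.card X) (η * ((2 * j + 1).choose j : ℝ)) hc hQ hs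
    (by positivity) ht
  have hcard : ((PRL.sl T1 D2 j ∪ PRL.sl T1 D2 (j + 1)).card : ℝ) ≤
      2 * ((2 * j + 1).choose j : ℝ) := by
    have h1 := Finset.card_union_le (PRL.sl T1 D2 j) (PRL.sl T1 D2 (j + 1))
    have h2 := PRL.gdf_sl T1 D2 j
    have h3 := PRL.gdf_sl T1 D2 (j + 1)
    rw [hT1] at h2 h3
    have h4 : (2 * j + 1).choose (j + 1) = (2 * j + 1).choose j := by
      rw [← Nat.choose_symm_half]
    rw [h4] at h3
    have h5 : (PRL.sl T1 D2 j ∪ PRL.sl T1 D2 (j + 1)).card ≤ 2 * (2 * j + 1).choose j := by omega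
    exact_mod_cast h5
  have hts : ((ε * η / (8 * κ)) * 2 ^ Fintype.card X) *
      (κ / 2 ^ Fintype.card X * (Φ.ncard : ℝ)) = ε * η / 8 * Φ.ncard := by
    field_simp
  rw [hts] at h
  have h6 : η * ((2 * j + 1).choose j : ℝ) * ({f | f ∈ Φ ∧ ¬ (({D | D ∈ PRL.sl T1 D2 j ∪
      PRL.sl T1 D2 (j + 1) ∧ ∃ m : X → Ty, m ≠ 0 ∧ m ∈ PRL.LS D ∧
      ¬ PRL.Bal η T1 D m ∧ Q f m}.ncard : ℝ) ≤ η * ((2 * j + 1).choose j : ℝ))}.ncard : ℝ) ≤
      η * ((2 * j + 1).choose j : ℝ) * (ε / 4 * Φ.ncard) := by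
    refine h.trans ?_
    calc ((PRL.sl T1 D2 j ∪ PRL.sl T1 D2 (j + 1)).card : ℝ) * (ε * η / 8 * Φ.ncard)
        ≤ (2 * ((2 * j + 1).choose j : ℝ)) * (ε * η / 8 * Φ.ncard) :=
          mul_le_mul_of_nonneg_right hcard (by positivity)
      _ = η * ((2 * j + 1).choose j : ℝ) * (ε / 4 * Φ.ncard) := by ring
  exact le_of_mul_le_mul_left h6 (by positivity)

section

variable {R : Type} [CommRing R] [IsDomain R]

theorem ex_zero (T : Finset (HeightOneSpectrum R)) :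
    ex T (0 : {P : HeightOneSpectrum R // P ∈ T} → Ty) = fun _ => 0 := by
  funext P
  unfold ex
  split_ifs <;> rfl

theorem ex_ne (T : Finset (HeightOneSpectrum R)) (m : {P : HeightOneSpectrum R // P ∈ T} → Ty)
    (h : ∀ v, m v ≠ (1, 1)) : ∀ P ∈ T, ex T m P ≠ (1, 1) := by
  intro P hP
  unfold ex
  rw [dif_pos hP]
  exact h ⟨P, hP⟩

end

end GDFKaux

open GDFKaux in
/-- GDFK. -/
theorem gdfk : GDFKStmt := by
  classical
  intro R _ _ K _ _ _ O π g T' A C b hBLC hAvP hDen hA hFin hTw ε η hε hη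
  set κ : ℝ := 2 * (C : ℝ) + 1 with hκdef
  have hκ : 0 < κ := by positivity
  obtain ⟨k1, hk1⟩ := hBLC (ε * η / (8 * κ)) η (by positivity) hη
  obtain ⟨k2, hk2⟩ := exists_nat_gt (2 * κ / ε)
  refine ⟨max k1 k2, ?_⟩
  intro D j hD hDT' hcard hj hNm ϖ hϖ
  have hj1 : k1 ≤ j := (le_max_left _ _).trans hj
  have hj2 : k2 ≤ j := (le_max_right _ _).trans hj
  have hXcard : Fintype.card {P : HeightOneSpectrum R // P ∈ D.T} = D.T.card :=
    Fintype.card_coe D.T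
  -- one bound for all the patterns
  have hN : ∀ m : {P : HeightOneSpectrum R // P ∈ D.T} → Ty, ∃ h₀ : ℕ,
      (∀ v, m v ≠ (1, 1)) → ∀ h : ℕ, h₀ ≤ h →
      2 ^ D.T.card * {f ∈ Fam π g D h | Pat K D ϖ (ex D.T m) f}.ncard ≤
        C * (Fam π g D h).ncard := by
    intro m
    by_cases hm : ∀ v, m v ≠ (1, 1)
    · obtain ⟨d, E, hE⟩ := hTw D hD hDT' (ex D.T m)
      obtain ⟨h₀, hh₀⟩ := hAvP D hD hDT' hNm ϖ hϖ (ex D.T m) (ex_ne D.T m hm) d E hE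
      exact ⟨h₀, fun _ => hh₀⟩
    · exact ⟨0, fun h => absurd h hm⟩
  choose NN hNN using hN
  obtain ⟨h₁, hh₁⟩ := hDen D hD (hDT' ▸ hA)
  refine ⟨max (Finset.univ.sup NN) h₁, ?_⟩
  intro h hh
  have hn' : ∀ m, NN m ≤ h := fun m =>
    (Finset.le_sup (Finset.mem_univ m)).trans ((le_max_left _ _).trans hh)
  have hsm := hh₁ h ((le_max_right _ _).trans hh)
  have h0ne : ∀ v, (0 : {P : HeightOneSpectrum R // P ∈ D.T} → Ty) v ≠ (1, 1) := by
    intro v h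
    have h1 := congrArg Prod.fst h
    simp at h1
  have hFf : (Fam π g D h).Finite := hFin D h hD
  have hsubF : FamS π g D h ⊆ Fam π g D h := fun f hf => hf.1
  have hfin : (FamS π g D h).Finite := hFf.subset hsubF
  set Φ : Set R[X] := FamS π g D h with hΦ
  -- the family is at most twice as large as its smooth part
  have htwo : ((Fam π g D h).ncard : ℝ) ≤ 2 * Φ.ncard := by
    have e1 : Fam π g D h = Φ ∪ {f ∈ Fam π g D h | ¬ Smooth f} := by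
      ext f
      constructor
      · intro hf
        by_cases hs : Smooth f
        · exact Or.inl ⟨hf, hs⟩
        · exact Or.inr ⟨hf, hs⟩
      · rintro (hf | hf)
        · exact hf.1
        · exact hf.1
    have e2 := Set.ncard_union_le Φ {f ∈ Fam π g D h | ¬ Smooth f}
    rw [← e1] at e2
    have e3 : (Fam π g D h).ncard ≤ 2 * Φ.ncard := by omega
    exact_mod_cast e3
  -- the number of elements with a given pattern
  have hpat : ∀ m : {P : HeightOneSpectrum R // P ∈ D.T} → Ty, (∀ v, m v ≠ (1, 1)) →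
      ({f | f ∈ Φ ∧ Pat K D ϖ (ex D.T m) f}.ncard : ℝ) ≤ κ / 2 ^ D.T.card * Φ.ncard := by
    intro m hm
    have e1 := hNN m hm h (hn' m)
    have e2 : {f | f ∈ Φ ∧ Pat K D ϖ (ex D.T m) f}.ncard ≤
        {f ∈ Fam π g D h | Pat K D ϖ (ex D.T m) f}.ncard :=
      Set.ncard_le_ncard (fun f hf => ⟨hsubF hf.1, hf.2⟩) (hFf.subset fun f hf => hf.1)
    have e3 : (2 : ℝ) ^ D.T.card * ({f | f ∈ Φ ∧ Pat K D ϖ (ex D.T m) f}.ncard : ℝ) ≤
        κ * Φ.ncard := by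
      have e4 : (2 : ℝ) ^ D.T.card * ({f ∈ Fam π g D h | Pat K D ϖ (ex D.T m) f}.ncard : ℝ) ≤
          C * (Fam π g D h).ncard := by exact_mod_cast e1
      have e5 : (2 : ℝ) ^ D.T.card * ({f | f ∈ Φ ∧ Pat K D ϖ (ex D.T m) f}.ncard : ℝ) ≤
          (2 : ℝ) ^ D.T.card * ({f ∈ Fam π g D h | Pat K D ϖ (ex D.T m) f}.ncard : ℝ) :=
        mul_le_mul_of_nonneg_left (by exact_mod_cast e2) (by positivity)
      have e6 : (C : ℝ) * (Fam π g D h).ncard ≤ C * (2 * Φ.ncard) :=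
        mul_le_mul_of_nonneg_left htwo (Nat.cast_nonneg _)
      have e7 : (0 : ℝ) ≤ (Φ.ncard : ℝ) := Nat.cast_nonneg _
      rw [hκdef]
      linarith
    rw [div_mul_eq_mul_div, le_div_iff₀ (by positivity), mul_comm]
    exact e3
  -- first bad set
  have hA0 : ({f | f ∈ Φ ∧ Pat K D ϖ (fun _ => 0) f}.ncard : ℝ) ≤ ε / 2 * Φ.ncard := by
    have h3 := hpat 0 h0ne
    rw [ex_zero] at h3
    refine h3.trans (mul_le_mul_of_nonneg_right ?_ (Nat.cast_nonneg _))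
    rw [div_le_div_iff₀ (by positivity) (by norm_num)]
    have h9 : (k2 : ℝ) ≤ 2 ^ D.T.card := by
      have h10 : k2 < 2 ^ D.T.card := by
        calc k2 ≤ D.T.card := by omega
          _ < 2 ^ D.T.card := Nat.lt_two_pow_self
      exact_mod_cast h10.le
    have h11 : 2 * κ / ε < 2 ^ D.T.card := hk2.trans_le h9
    rw [div_lt_iff₀ hε] at h11
    linarith
  -- the second bad set
  have hB0 : ({f | f ∈ Φ ∧ ¬ (({S : Finset {P : HeightOneSpectrum R // P ∈ D.T} |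
      S ∈ PRL.sl Finset.univ ∅ j ∪ PRL.sl Finset.univ ∅ (j + 1) ∧
      ∃ m : {P : HeightOneSpectrum R // P ∈ D.T} → Ty, m ≠ 0 ∧ m ∈ PRL.LS S ∧
        ¬ PRL.Bal η Finset.univ S m ∧ Pat K D ϖ (ex D.T m) f}.ncard : ℝ) ≤
      η * ((2 * j + 1).choose j : ℝ))}.ncard : ℝ) ≤ ε / 4 * Φ.ncard := by
    refine one Φ hfin (fun f m => Pat K D ϖ (ex D.T m) f)
      (fun f m => if Pat K D ϖ (ex D.T m) f then 1 else 0) Finset.univ ∅ j ?_ η ε κ hη hε hκ
      (fun f _ m => ?_) ?_ ?_ ?_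
    · rw [Finset.card_univ, hXcard, hcard]
    · show (0 : ℝ) ≤ if Pat K D ϖ (ex D.T m) f then 1 else 0
      split_ifs
      · exact zero_le_one
      · exact le_rfl
    · intro f _ m _ hQ
      have hQ' : Pat K D ϖ (ex D.T m) f := hQ
      show (1 : ℝ) ≤ if Pat K D ϖ (ex D.T m) f then 1 else 0
      rw [if_pos hQ']
    · intro m hm
      rw [hXcard, finsum_mem_eq_finite_toFinset_sum _ hfin, Finset.sum_boole]
      have e1 : {f | f ∈ Φ ∧ Pat K D ϖ (ex D.T m) f} =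
          ((hfin.toFinset.filter fun f => Pat K D ϖ (ex D.T m) f : Finset R[X]) :
            Set R[X]) := by
        ext f
        simp
      have e2 := hpat m hm
      rw [e1, Set.ncard_coe_finset] at e2
      exact e2
    · intro S
      exact hk1 _ Finset.univ S (by rw [Finset.card_univ, hXcard, hcard]; omega)
  have hsub : {f | f ∈ Φ ∧ ¬ Good K η D ϖ j f} ⊆
      {f | f ∈ Φ ∧ Pat K D ϖ (fun _ => 0) f} ∪
      {f | f ∈ Φ ∧ ¬ (({S : Finset {P : HeightOneSpectrum R // P ∈ D.T} |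
      S ∈ PRL.sl Finset.univ ∅ j ∪ PRL.sl Finset.univ ∅ (j + 1) ∧
      ∃ m : {P : HeightOneSpectrum R // P ∈ D.T} → Ty, m ≠ 0 ∧ m ∈ PRL.LS S ∧
        ¬ PRL.Bal η Finset.univ S m ∧ Pat K D ϖ (ex D.T m) f}.ncard : ℝ) ≤
      η * ((2 * j + 1).choose j : ℝ))} := by
    rintro f ⟨hf, hG⟩
    by_contra hcon
    simp only [Set.mem_union, Set.mem_ofPred_eq, not_or, not_and, not_not] at hcon
    exact hG ⟨hcon.1 hf, hcon.2 hf⟩
  have hfs : ∀ p : R[X] → Prop, ({f | f ∈ Φ ∧ p f} : Set R[X]).Finite := fun p =>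
    hfin.subset fun f hf => hf.1
  have h12 := Set.ncard_le_ncard hsub ((hfs _).union (hfs _))
  have h13 := h12.trans (Set.ncard_union_le _ _)
  have h15 : (({f | f ∈ Φ ∧ ¬ Good K η D ϖ j f}.ncard : ℕ) : ℝ) ≤ _ := Nat.cast_le.2 h13
  push_cast at h15
  have e7 : (0 : ℝ) ≤ ε * (Φ.ncard : ℝ) := mul_nonneg hε.le (Nat.cast_nonneg _)
  linarith

end Pool.PRK
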