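import Pool.Agent.H79.PRK.S9
import Pool.Agent.H57.AVR.MWL

/-!
# PRK, row MWK: the group of points is finitely generated
-/

set_option autoImplicit false

namespace Pool.PRK

open Polynomial Matrix Pool.HYP Pool.TOW Pool.AVS Pool.T1 IsDedekindDomain

theorem mwk_cub {K : Type} [Field K] (f : K[X]) (hm : f.Monic) (hdeg : f.natDegree = 3) :
    f = Pool.AVR.cub (f.coeff 2) (f.coeff 1) (f.coeff 0) := by
  have h3 : f.coeff 3 = 1 := by
    have := hm.coeff_natDegree
    rwa [hdeg] at this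
  have h := f.as_sum_range_C_mul_X_pow
  rw [hdeg] at h
  rw [Finset.sum_range_succ, Finset.sum_range_succ, Finset.sum_range_succ,
    Finset.sum_range_succ, Finset.sum_range_zero, h3] at h
  conv_lhs => rw [h]
  unfold Pool.AVR.cub
  simp only [map_one, pow_zero, mul_one, one_mul, pow_one, zero_add]
  ring

open Classical in
theorem mwk : MWKStmt := by
  intro hAAV hEMB hGRD hHOM hKER hPLL hRNK hDSC R _ _ K _ _ _ O π hGR f hm hdeg hirr hsep hfin
  obtain ⟨inst, hN⟩ := hAAV R K O π hGR hGRD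
  obtain ⟨φ, hinj, hφ⟩ := hEMB hHOM hKER K hGR.two f hm hdeg hirr hsep
  have hcub := mwk_cub f hm hdeg
  obtain ⟨h3, h4⟩ := hDSC K hGR.two (f.coeff 2) (f.coeff 1) (f.coeff 0)
  have h5 : (Pool.AVR.E (f.coeff 2) (f.coeff 1) (f.coeff 0)).Δ ≠ 0 := by
    rw [h4]
    refine mul_ne_zero ?_ (h3.1 (by rw [← hcub]; exact hsep))
    have h16 : (16 : K) = 2 ^ 4 := by norm_num
    rw [h16]
    exact pow_ne_zero _ hGR.two
  have hell : (Pool.AVR.E (f.coeff 2) (f.coeff 1) (f.coeff 0)).IsElliptic :=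
    ⟨isUnit_iff_ne_zero.2 h5⟩
  have hfS : Finite (SelG f) := hfin.to_subtype
  have hinj2 : Function.Injective
      (fun q : Pool.AVR.Mod2 (PtF f) => (⟨φ q, hφ q⟩ : SelG f)) := fun a b hab =>
    hinj (congrArg Subtype.val hab)
  have hmod : Finite (Pool.AVR.Mod2 (PtF f)) := Finite.of_injective _ hinj2
  have hfg : AddGroup.FG (PtF f) := Pool.AVR.mwl_general _ (hPLL K _) hmod
  obtain ⟨-, h6, -⟩ := hRNK (PtF f) hfg
  refine ⟨hfg, h6.trans ?_⟩
  have h7 := Nat.card_le_card_of_injective _ hinj2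
  rwa [Nat.card_coe_set_eq] at h7

end Pool.PRK
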